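import Pool.Agent.KS6_47.Del.Cube

/-!
# Fourth powers of Delannoy polynomials: two variables, arbitrary commutative rings
-/

set_option autoImplicit false

namespace Pool.Agent.Results.MP_c45f9b_nt.TwoVariables

open Finset Pool.Agent.KS6_47.Del.DelA Pool.Agent.KS6_47.Del.Cube

universe u

variable {R : Type u} [CommRing R]

/-- The Delannoy polynomial `D_n` evaluated at an element of a commutative ring. -/
def Dl (n : ℕ) (x : R) : R :=
  ∑ k ∈ range (n + 1), (n.choose k : R) * ((n + k).choose k : R) * x ^ k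

/-- The sum `∑_{i ≤ k} C(k, i) C(k + i, i) C(2 i, i) a_i`. -/
def Fs (a : ℕ → R) (k : ℕ) : R :=
  ∑ i ∈ range (k + 1), (k.choose i : R) * ((k + i).choose i : R) * ((2 * i).choose i : R) * a i

/-- The sum `∑_{i + j < p} (-1)^(i+j) C(i + j, i) C(2 i, i) C(2 j, j) a_i b_j`. -/
def Ts (p : ℕ) (a b : ℕ → R) : R :=
  ∑ i ∈ range p, ∑ j ∈ range (p - i), (-1) ^ (i + j) * ((i + j).choose i : R) *
    ((2 * i).choose i : R) * ((2 * j).choose j : R) * a i * b j

theorem Fs_eq (a : ℕ → R) (k M : ℕ) (h : k < M) :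
    Fs a k = ∑ i ∈ range M, ((phi i k : ℤ) : R) * (((dd i : ℤ) : R) * a i) := by
  unfold Fs
  have : ∀ i, (k.choose i : R) * ((k + i).choose i : R) * ((2 * i).choose i : R) * a i =
      ((phi i k : ℤ) : R) * (((dd i : ℤ) : R) * a i) := by
    intro i
    simp only [phi, dd]
    push_cast
    ring
  rw [Finset.sum_congr rfl fun i _ => this i]
  refine Finset.sum_subset (range_subset_range.mpr h) fun i _ hi => ?_
  rw [phi_zero (show k < i by simpa using hi)]; simp

theorem mul_expand (k M : ℕ) (h : k < M) (u v : ℕ → R) :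
    (∑ i ∈ range M, ((phi i k : ℤ) : R) * u i) * (∑ j ∈ range M, ((phi j k : ℤ) : R) * v j)
      = ∑ s ∈ range M, ((phi s k : ℤ) : R) *
        ∑ i ∈ range M, ∑ j ∈ range M, ((cc i j s : ℤ) : R) * (u i * v j) := by
  rw [Finset.sum_mul_sum]
  simp only [Finset.mul_sum]
  rw [Finset.sum_comm (s := range M) (t := range M)
    (f := fun s i => ∑ j ∈ range M, ((phi s k : ℤ) : R) * (((cc i j s : ℤ) : R) * (u i * v j)))]
  refine Finset.sum_congr rfl fun i _ => ?_
  rw [Finset.sum_comm]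
  refine Finset.sum_congr rfl fun j _ => ?_
  have e : ((phi i k : ℤ) : R) * ((phi j k : ℤ) : R) =
      ∑ s ∈ range M, ((cc i j s : ℤ) : R) * ((phi s k : ℤ) : R) := by
    have := congrArg (Int.cast : ℤ → R) (phi_mul k M h i j)
    push_cast at this
    exact this
  rw [show ((phi i k : ℤ) : R) * u i * (((phi j k : ℤ) : R) * v j) =
    ((phi i k : ℤ) : R) * ((phi j k : ℤ) : R) * (u i * v j) by ring, e, Finset.sum_mul]
  refine Finset.sum_congr rfl fun s _ => by ring

theorem dvd_cast {m n : ℤ} (h : m ∣ n) : (m : R) ∣ (n : R) := by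
  obtain ⟨c, rfl⟩ := h
  exact ⟨(c : R), by push_cast; rfl⟩

/-- The general congruence. -/
theorem general (p : ℕ) (hp : p.Prime) (hodd : Odd p) (a b : ℕ → R) :
    (p : R) ^ 3 ∣ (∑ k ∈ range p, (-1) ^ k * (2 * (k : R) + 1) * (Fs a k * Fs b k))
      - (p : R) * Ts p a b := by
  obtain ⟨n, hn⟩ := hodd
  set u : ℕ → R := fun i => ((dd i : ℤ) : R) * a i with hu
  set v : ℕ → R := fun i => ((dd i : ℤ) : R) * b i with hv
  set B : ℕ → R := fun s => ∑ i ∈ range p, ∑ j ∈ range p, ((cc i j s : ℤ) : R) * (u i * v j) with hB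
  have s1 : (∑ k ∈ range p, (-1) ^ k * (2 * (k : R) + 1) * (Fs a k * Fs b k))
      = p * ∑ s ∈ range p,
        ((((2 * n).choose s : ℤ) * ((2 * n + 1 + s).choose s : ℤ) : ℤ) : R) * B s := by
    have : ∀ k ∈ range p, (-1) ^ k * (2 * (k : R) + 1) * (Fs a k * Fs b k)
        = ∑ s ∈ range p, (((-1) ^ k * (2 * (k : ℤ) + 1) * phi s k : ℤ) : R) * B s := by
      intro k hk
      rw [Fs_eq a k p (mem_range.mp hk), Fs_eq b k p (mem_range.mp hk),
        mul_expand k p (mem_range.mp hk), Finset.mul_sum]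
      refine Finset.sum_congr rfl fun s _ => ?_
      push_cast
      simp only [hB, hu, hv]
      ring
    rw [Finset.sum_congr rfl this, Finset.sum_comm, Finset.mul_sum]
    refine Finset.sum_congr rfl fun s _ => ?_
    rw [← Finset.sum_mul]
    have h := alt_sum s (2 * n)
    rw [← hn] at h
    have h' := congrArg (Int.cast : ℤ → R) h
    rw [Int.cast_sum] at h'
    rw [h', hn, pow_mul]
    push_cast
    ring
  have hpz : (p : ℤ) = ((2 * n : ℕ) : ℤ) + 1 := by rw [hn]; push_cast; ring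
  have s2 : (p : R) ^ 2 ∣ ∑ s ∈ range p,
      ((((2 * n).choose s : ℤ) * ((2 * n + 1 + s).choose s : ℤ) : ℤ) : R) * B s
      - ∑ s ∈ range p, (-1) ^ s * B s := by
    rw [← Finset.sum_sub_distrib]
    refine Finset.dvd_sum fun s hs => ?_
    rw [← sub_mul]
    have h1 := dvd_cast (R := R) (psi_mod (2 * n) (hn ▸ hp) s (by have := mem_range.mp hs; omega))
    rw [← hpz] at h1
    push_cast at h1 ⊢
    exact h1.mul_right _
  have s3 : ∑ s ∈ range p, (-1) ^ s * B s = ∑ i ∈ range p, ∑ j ∈ range p,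
      a i * b j * ((dd i * dd j * ∑ s ∈ range p, (-1) ^ s * cc i j s : ℤ) : R) := by
    simp only [hB, Finset.mul_sum, Int.cast_sum]
    rw [Finset.sum_comm]
    refine Finset.sum_congr rfl fun i _ => ?_
    rw [Finset.sum_comm]
    refine Finset.sum_congr rfl fun j _ => Finset.sum_congr rfl fun s _ => ?_
    simp only [hu, hv]; push_cast; ring
  have s4 : (p : R) ^ 2 ∣ ∑ s ∈ range p, (-1) ^ s * B s - Ts p a b := by
    have e : Ts p a b = ∑ i ∈ range p, ∑ j ∈ range (p - i),
        a i * b j * ((dd i * dd j * ∑ s ∈ range p, (-1) ^ s * cc i j s : ℤ) : R) := by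
      unfold Ts
      refine Finset.sum_congr rfl fun i hi => Finset.sum_congr rfl fun j hj => ?_
      rw [tau_full i j p (by have := mem_range.mp hi; have := mem_range.mp hj; omega)]
      simp only [dd]
      push_cast
      ring
    rw [s3, e, ← Finset.sum_sub_distrib]
    refine Finset.dvd_sum fun i hi => ?_
    rw [← Finset.sum_range_add_sum_Ico _ (Nat.sub_le p i), add_sub_cancel_left]
    refine Finset.dvd_sum fun j hj => Dvd.dvd.mul_left ?_ _
    have := mem_Ico.mp hj
    have h1 := dvd_cast (R := R) (tau_big p i j hp (mem_range.mp hi) this.2 (by omega))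
    push_cast at h1 ⊢
    simp only [dd]
    push_cast
    exact h1
  rw [s1, ← mul_sub, pow_succ']
  refine mul_dvd_mul_left _ ?_
  obtain ⟨c, hc⟩ := dvd_add s2 s4
  exact ⟨c, by linear_combination hc⟩

open Polynomial in
/-- A polynomial identity over `ℤ` gives the identity in every commutative ring. -/
theorem transfer (P Q : ℤ[X]) (h : ∀ x : ℤ, P.eval x = Q.eval x) (x : R) :
    aeval x P = aeval x Q := by
  rw [Polynomial.funext h]

/-- Squares of Delannoy polynomials. -/
theorem Dl_sq (k : ℕ) (x : R) : Dl k x ^ 2 = Fs (fun i => (x ^ 2 + x) ^ i) k := by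
  classical
  let P : Polynomial ℤ := (∑ i ∈ range (k + 1), Polynomial.C ((k.choose i : ℤ) *
    ((k + i).choose i : ℤ)) * Polynomial.X ^ i) ^ 2
  let Q : Polynomial ℤ := ∑ i ∈ range (k + 1), Polynomial.C ((k.choose i : ℤ) *
    ((k + i).choose i : ℤ) * ((2 * i).choose i : ℤ)) * (Polynomial.X ^ 2 + Polynomial.X) ^ i
  have h : ∀ y : ℤ, P.eval y = Q.eval y := by
    intro y
    have h1 := D_sq k (k + 1) (Nat.lt_succ_self k) y
    simp only [P, Q, Polynomial.eval_pow, Polynomial.eval_finsetSum, Polynomial.eval_mul,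
      Polynomial.eval_C, Polynomial.eval_X, Polynomial.eval_add]
    rw [D] at h1
    rw [h1]
    refine Finset.sum_congr rfl fun s _ => ?_
    simp only [phi, dd]
    ring
  have h2 := transfer (R := R) P Q h x
  simp only [P, Q, map_pow, map_sum, map_mul, Polynomial.aeval_X, map_add, map_intCast,
    map_natCast, Int.cast_natCast, eq_intCast] at h2
  rw [Dl, h2, Fs]

/-- The two-variable congruence. -/
theorem twoVar (p : ℕ) (hp : p.Prime) (hodd : Odd p) (x z : R) :
    (p : R) ^ 3 ∣ (∑ k ∈ range p, (-1) ^ k * (2 * (k : R) + 1) * (Dl k x ^ 2 * Dl k z ^ 2))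
      - (p : R) * Ts p (fun i => (x ^ 2 + x) ^ i) (fun j => (z ^ 2 + z) ^ j) := by
  have h := general p hp hodd (fun i => (x ^ 2 + x) ^ i) (fun j => (z ^ 2 + z) ^ j)
  simp only [← Dl_sq] at h
  exact h

/-- The one-variable congruence of the problem. -/
theorem oneVar (p : ℕ) (hp : p.Prime) (hodd : Odd p) (x : R) :
    (p : R) ^ 3 ∣ (∑ k ∈ range p, (-1) ^ k * (2 * (k : R) + 1) * Dl k x ^ 4)
      - (p : R) * ∑ k ∈ range ((p - 1) / 2 + 1), (-1) ^ k * ((2 * k).choose k : R) ^ 2 *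
        (x ^ 2 + x) ^ k * (2 * x + 1) ^ (2 * k) := by
  obtain ⟨n, hn⟩ := id hodd
  set y : R := x ^ 2 + x with hy
  have h := twoVar p hp hodd x x
  have e1 : Ts p (fun i => (x ^ 2 + x) ^ i) (fun j => (x ^ 2 + x) ^ j) =
      ∑ N ∈ range p, ((aZ N : ℤ) : R) * (-y) ^ N := by
    unfold Ts
    rw [← Finset.sum_range_diag_flip p
      (fun i j => (-1) ^ (i + j) * ((i + j).choose i : R) *
        ((2 * i).choose i : R) * ((2 * j).choose j : R) * (x ^ 2 + x) ^ i * (x ^ 2 + x) ^ j)]
    refine Finset.sum_congr rfl fun N hN => ?_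
    rw [aZ, Int.cast_sum, Finset.sum_mul]
    refine Finset.sum_congr rfl fun i hi => ?_
    have h1 : i + (N - i) = N := by have := mem_range.mp hi; omega
    rw [h1, neg_pow y, mul_assoc _ ((x ^ 2 + x) ^ i), ← pow_add, h1]
    simp only [dd, hy]
    push_cast
    ring
  have s5 : ∑ k ∈ Finset.range (n + 1),
      (-1) ^ k * ((2 * k).choose k : R) ^ 2 * y ^ k * (2 * x + 1) ^ (2 * k)
        = ∑ N ∈ range p, (((Hp n).coeff N : ℤ) : R) * (-y) ^ N := by
    have hdeg : (Hp n).natDegree < p := by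
      have : (Hp n).natDegree ≤ 2 * n := by
        refine Polynomial.natDegree_sum_le_of_forall_le _ _ fun k hk => ?_
        refine (Polynomial.natDegree_C_mul_le _ _).trans (Polynomial.natDegree_pow_le.trans ?_)
        have h1 : (Polynomial.X * (1 - 4 * Polynomial.X) : Polynomial ℤ).natDegree ≤ 2 := by
          compute_degree
        have h2 : k ≤ n := by have := mem_range.mp hk; omega
        nlinarith
      omega
    have h3 : Polynomial.aeval (-y) (Hp n) = ∑ N ∈ range p, (((Hp n).coeff N : ℤ) : R) * (-y) ^ N := by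
      rw [Polynomial.aeval_eq_sum_range' hdeg]
      refine Finset.sum_congr rfl fun N _ => ?_
      rw [zsmul_eq_mul]
    rw [← h3, Hp, map_sum]
    refine Finset.sum_congr rfl fun k _ => ?_
    simp only [map_mul, map_pow, Polynomial.aeval_X, map_sub, map_one, map_ofNat, dd, map_natCast,
      Int.cast_natCast, eq_intCast]
    rw [pow_mul, show -y * (1 - 4 * -y) = -1 * y * (2 * x + 1) ^ 2 by rw [hy]; ring, mul_pow,
      mul_pow]
    ring
  have s6 : (p : R) ^ 2 ∣ ∑ N ∈ range p, ((aZ N : ℤ) : R) * (-y) ^ N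
      - ∑ N ∈ range p, (((Hp n).coeff N : ℤ) : R) * (-y) ^ N := by
    rw [← Finset.sum_sub_distrib]
    refine Finset.dvd_sum fun N hN => ?_
    rw [← sub_mul]
    refine Dvd.dvd.mul_right ?_ _
    have h7 : (p : ℤ) ^ 2 ∣ aZ N - (Hp n).coeff N := by
      rw [← coeff_Hp (2 * n) N (by have := mem_range.mp hN; omega), Hp, Hp,
        ← Finset.sum_range_add_sum_Ico _ (show n + 1 ≤ 2 * n + 1 by omega), Polynomial.coeff_add,
        add_sub_cancel_left, Polynomial.finsetSum_coeff]
      refine Finset.dvd_sum fun k hk => ?_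
      rw [Polynomial.coeff_C_mul]
      have := mem_Ico.mp hk
      exact (pow_dvd_pow_of_dvd (Int.natCast_dvd_natCast.mpr
        (hp.dvd_choose (by omega) (by omega) (by omega))) 2).mul_right _
    have h8 := dvd_cast (R := R) h7
    push_cast at h8
    exact h8
  rw [e1] at h
  rw [show (p - 1) / 2 = n by omega, s5]
  have e2 : (∑ k ∈ range p, (-1) ^ k * (2 * (k : R) + 1) * Dl k x ^ 4) =
      ∑ k ∈ range p, (-1) ^ k * (2 * (k : R) + 1) * (Dl k x ^ 2 * Dl k x ^ 2) :=
    Finset.sum_congr rfl fun k _ => by ring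
  rw [e2]
  obtain ⟨c, hc⟩ := h
  obtain ⟨d, hd⟩ := s6
  exact ⟨c + d, by linear_combination hc + (p : R) * hd⟩

/-- **Sums of products of squares of Delannoy polynomials modulo `p ^ 3`.** Let `R` be a
commutative ring and `p` an odd prime; all congruences are modulo `p ^ 3 R`.

(1) For all sequences `a`, `b` in `R`,
`∑_{k<p} (-1)^k (2k+1) F_k(a) F_k(b) ≡ p ∑_{i+j<p} (-1)^(i+j) C(i+j,i) C(2i,i) C(2j,j) a_i b_j`,
where `F_k(a) = ∑_i C(k,i) C(k+i,i) C(2i,i) a_i`.

(2) For all `x, z ∈ R`, `∑_{k<p} (-1)^k (2k+1) D_k(x)² D_k(z)²` is congruent to `p` times the same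
sum with `a_i = (x²+x)^i`, `b_j = (z²+z)^j`.

(3) For all `x ∈ R`, `S_p(x) ≡ p T_p(x)`; for `R = ℤ` this is Q1, for `R = ℤ[X]` it is the
congruence of all coefficients. -/
theorem result (R : Type u) [CommRing R] (p : ℕ) (hp : p.Prime) (hodd : Odd p) :
    (∀ a b : ℕ → R, (p : R) ^ 3 ∣
      (∑ k ∈ range p, (-1) ^ k * (2 * (k : R) + 1) * (Fs a k * Fs b k)) - (p : R) * Ts p a b) ∧
    (∀ x z : R, (p : R) ^ 3 ∣
      (∑ k ∈ range p, (-1) ^ k * (2 * (k : R) + 1) * (Dl k x ^ 2 * Dl k z ^ 2))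
        - (p : R) * Ts p (fun i => (x ^ 2 + x) ^ i) (fun j => (z ^ 2 + z) ^ j)) ∧
    (∀ x : R, (p : R) ^ 3 ∣
      (∑ k ∈ range p, (-1) ^ k * (2 * (k : R) + 1) * Dl k x ^ 4)
        - (p : R) * ∑ k ∈ range ((p - 1) / 2 + 1), (-1) ^ k * ((2 * k).choose k : R) ^ 2 *
          (x ^ 2 + x) ^ k * (2 * x + 1) ^ (2 * k)) :=
  ⟨fun a b => general p hp hodd a b, fun x z => twoVar p hp hodd x z,
    fun x => oneVar p hp hodd x⟩

end Pool.Agent.Results.MP_c45f9b_nt.TwoVariables
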